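import Mathlib

/-!
# Weakly octahedral norms and their finite-point characterisation

Every real normed space having property (P) is weakly octahedral.  Hence the two properties are
equivalent.
-/

namespace Pool.Agent.Results.MP_140fc6_an.FinitePointWeaklyOctahedral

/-- `X` is weakly octahedral. -/
def WeaklyOctahedral (X : Type*) [NormedAddCommGroup X] [NormedSpace ℝ X] : Prop :=
  ∀ (E : Submodule ℝ X) (f : StrongDual ℝ X) (ε : ℝ), FiniteDimensional ℝ E → ‖f‖ ≤ 1 → 0 < ε →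
    ∃ y : X, ‖y‖ = 1 ∧ ∀ x ∈ E, (1 - ε) * (|f x| + ‖y‖) ≤ ‖x + y‖

/-- Property (P): the inequality of weakly octahedral spaces at finitely many prescribed points
of the unit sphere. -/
def PropertyP (X : Type*) [NormedAddCommGroup X] [NormedSpace ℝ X] : Prop :=
  ∀ (ε : ℝ) (n : ℕ) (x : Fin n → X) (f : StrongDual ℝ X), 0 < ε → (∀ i, ‖x i‖ = 1) → ‖f‖ ≤ 1 →
    ∃ y : X, ‖y‖ = 1 ∧ ∀ i, (1 - ε) * (|f (x i)| + 1) ≤ ‖x i + y‖

variable {X : Type*} [NormedAddCommGroup X] [NormedSpace ℝ X]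

/-- From the unit sphere of `E` to the unit ball of `E`. -/
lemma ball_bound (E : Submodule ℝ X) (g : StrongDual ℝ X) (u₀ y : X) (κ : ℝ) (hκ : 0 ≤ κ)
    (hu₀E : u₀ ∈ E) (hu₀ : ‖u₀‖ = 1) (hgu : g u₀ = 1) (hy : ‖y‖ = 1)
    (hsph : ∀ u ∈ E, ‖u‖ = 1 → 1 + |g u| - κ ≤ ‖u + y‖)
    (v : X) (hvE : v ∈ E) (hv : ‖v‖ ≤ 1) : 1 + |g v| - 5 * κ ≤ ‖v + y‖ := by
  obtain ⟨σ, hσ, hσg⟩ : ∃ σ : ℝ, |σ| = 1 ∧ σ * g v = |g v| := by
    rcases le_total 0 (g v) with h | h
    · exact ⟨1, by simp, by simp [abs_of_nonneg h]⟩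
    · exact ⟨-1, by simp, by simp [abs_of_nonpos h]⟩
  have hσσ : σ * σ = 1 := by rw [← abs_mul_abs_self, hσ]; norm_num
  set w : X := σ • u₀ + (1 / 4 : ℝ) • v with hw
  set N : ℝ := ‖w‖ with hN
  have h1 : ‖σ • u₀‖ = 1 := by rw [norm_smul, Real.norm_eq_abs, hσ, hu₀, one_mul]
  have h2 : ‖(1 / 4 : ℝ) • v‖ ≤ 1 / 4 := by
    rw [norm_smul, Real.norm_eq_abs, abs_of_pos (by norm_num : (0 : ℝ) < 1 / 4)]
    linarith
  have hN1 : 3 / 4 ≤ N := by
    have := norm_sub_le w ((1 / 4 : ℝ) • v)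
    have h3 : w - (1 / 4 : ℝ) • v = σ • u₀ := by rw [hw]; abel
    rw [h3, h1] at this
    linarith
  have hN2 : N ≤ 5 / 4 := by
    have := norm_add_le (σ • u₀) ((1 / 4 : ℝ) • v)
    linarith
  have hN0 : 0 < N := by linarith
  -- the unit vector `u = w / N`
  have huE : N⁻¹ • w ∈ E :=
    E.smul_mem _ (E.add_mem (E.smul_mem _ hu₀E) (E.smul_mem _ hvE))
  have hun : ‖N⁻¹ • w‖ = 1 := by
    rw [norm_smul, Real.norm_eq_abs, abs_of_pos (inv_pos.2 hN0), ← hN,
      inv_mul_cancel₀ hN0.ne']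
  have h4 := hsph _ huE hun
  have h5 : N * ‖N⁻¹ • w + y‖ = ‖w + N • y‖ := by
    have : w + N • y = N • (N⁻¹ • w + y) := by
      rw [smul_add, smul_smul, mul_inv_cancel₀ hN0.ne', one_smul]
    rw [this, norm_smul, Real.norm_eq_abs, abs_of_pos hN0]
  have hgw : g w = σ + (1 / 4) * g v := by
    rw [hw, map_add, map_smul, map_smul, hgu]; simp
  have h6 : N * |g (N⁻¹ • w)| = |g w| := by
    rw [map_smul, smul_eq_mul, abs_mul, abs_of_pos (inv_pos.2 hN0), ← mul_assoc,
      mul_inv_cancel₀ hN0.ne', one_mul]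
  have h7 : |g w| = 1 + (1 / 4) * |g v| := by
    have e : σ * g w = 1 + (1 / 4) * |g v| := by
      rw [hgw, mul_add, hσσ]
      rw [← hσg]; ring
    have e2 : |σ * g w| = |g w| := by rw [abs_mul, hσ, one_mul]
    rw [← e2, e, abs_of_nonneg (by positivity)]
  have h8 : N + (1 + (1 / 4) * |g v|) - N * κ ≤ ‖w + N • y‖ := by
    have := mul_le_mul_of_nonneg_left h4 hN0.le
    rw [h5] at this
    have e : N * (1 + |g (N⁻¹ • w)| - κ) = N + N * |g (N⁻¹ • w)| - N * κ := by ring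
    rw [e, h6, h7] at this
    exact this
  -- the decomposition
  have h9 : (2 : ℝ) • (w + N • y) =
      (σ • u₀ + (2 * N - 3 / 2) • y) + (σ • u₀ + y) + (1 / 2 : ℝ) • (v + y) := by
    rw [hw]
    module
  have h10 : 2 * ‖w + N • y‖ ≤ (1 + (2 * N - 3 / 2)) + (1 + 1) + (1 / 2) * ‖v + y‖ := by
    have e : ‖(2 : ℝ) • (w + N • y)‖ = 2 * ‖w + N • y‖ := by
      rw [norm_smul, Real.norm_eq_abs, abs_of_pos (by norm_num : (0 : ℝ) < 2)]
    rw [← e, h9]
    refine (norm_add_le _ _).trans (add_le_add ((norm_add_le _ _).trans (add_le_add ?_ ?_)) ?_)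
    · refine (norm_add_le _ _).trans ?_
      rw [h1, norm_smul, hy, mul_one, Real.norm_eq_abs, abs_of_nonneg (by linarith)]
    · refine (norm_add_le _ _).trans ?_
      rw [h1, hy]
    · rw [norm_smul, Real.norm_eq_abs, abs_of_pos (by norm_num : (0 : ℝ) < 1 / 2)]
  have h11 : N * κ ≤ (5 / 4) * κ := mul_le_mul_of_nonneg_right hN2 hκ
  linarith

/-- From the unit sphere of `E` to the complement of the unit ball of `E`. -/
lemma outer_bound (g : StrongDual ℝ X) (y : X) (κ : ℝ) (hy : ‖y‖ = 1)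
    (u : X) (hs : 1 + |g u| - κ ≤ ‖u + y‖) (t : ℝ) (ht : 1 ≤ t) :
    1 + |g (t • u)| - t * κ ≤ ‖t • u + y‖ := by
  have ht0 : 0 < t := by linarith
  have h1 : t • (u + y) = (t • u + y) + (t - 1) • y := by module
  have h2 : t * ‖u + y‖ ≤ ‖t • u + y‖ + (t - 1) := by
    have e : ‖t • (u + y)‖ = t * ‖u + y‖ := by
      rw [norm_smul, Real.norm_eq_abs, abs_of_pos ht0]
    rw [← e, h1]
    refine (norm_add_le _ _).trans ?_
    rw [norm_smul, hy, mul_one, Real.norm_eq_abs, abs_of_nonneg (by linarith)]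
  have h3 := mul_le_mul_of_nonneg_left hs ht0.le
  have h4 : |g (t • u)| = t * |g u| := by
    rw [map_smul, smul_eq_mul, abs_mul, abs_of_pos ht0]
  rw [h4]
  nlinarith

/-- the functional `f` can be replaced by a norm-one functional attaining its norm on `E` -/
lemma exists_good_functional (E : Submodule ℝ X) [FiniteDimensional ℝ E]
    (f : StrongDual ℝ X) (hf : ‖f‖ ≤ 1) (hE : ∃ x ∈ E, x ≠ 0) :
    ∃ (g : StrongDual ℝ X) (u₀ : X), u₀ ∈ E ∧ ‖u₀‖ = 1 ∧ g u₀ = 1 ∧ ‖g‖ ≤ 1 ∧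
      ∀ x ∈ E, |f x| ≤ |g x| := by
  obtain ⟨x₀, hx₀E, hx₀⟩ := hE
  have : Nontrivial E := ⟨⟨⟨x₀, hx₀E⟩, 0, by
    intro h; exact hx₀ (congrArg Subtype.val h)⟩⟩
  have : ProperSpace E := FiniteDimensional.proper ℝ E
  have hcomp : IsCompact (Metric.sphere (0 : E) 1) := isCompact_sphere _ _
  have hne : (Metric.sphere (0 : E) 1).Nonempty := NormedSpace.sphere_nonempty.2 zero_le_one
  obtain ⟨u, huS, hmax⟩ := hcomp.exists_isMaxOn hne
    (f := fun x : E => f x) (by fun_prop)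
  have hu1 : ‖u‖ = 1 := by simpa using huS
  have hu1' : ‖(u : X)‖ = 1 := hu1
  set m : ℝ := f u with hm
  have hbound : ∀ x : E, |f x| ≤ m * ‖x‖ := by
    intro x
    rcases eq_or_ne x 0 with rfl | hx
    · simp
    have hx' : 0 < ‖x‖ := norm_pos_iff.2 hx
    have hS : ∀ s : ℝ, |s| = 1 → s * f x ≤ m * ‖x‖ := by
      intro s hs
      have hmem : (s * ‖x‖⁻¹) • x ∈ Metric.sphere (0 : E) 1 := by
        rw [mem_sphere_zero_iff_norm, norm_smul, Real.norm_eq_abs, abs_mul, hs, one_mul,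
          abs_of_pos (inv_pos.2 hx'), inv_mul_cancel₀ hx'.ne']
      have h1 : f (((s * ‖x‖⁻¹) • x : E) : X) ≤ m := hmax hmem
      rw [Submodule.coe_smul, map_smul, smul_eq_mul] at h1
      have h2 := mul_le_mul_of_nonneg_right h1 hx'.le
      calc s * f x = s * ‖x‖⁻¹ * f x * ‖x‖ := by field_simp
        _ ≤ _ := h2
    refine abs_le.2 ⟨?_, ?_⟩
    · have := hS (-1) (by simp); linarith
    · have := hS 1 (by simp); linarith
  have hm0 : 0 ≤ m := by
    have := (abs_nonneg _).trans (hbound u)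
    rw [hu1, mul_one] at this
    exact this
  have hm1 : m ≤ 1 := by
    have h1 := f.le_opNorm (u : X)
    rw [hu1', mul_one] at h1
    exact ((le_abs_self _).trans h1).trans hf
  rcases hm0.eq_or_lt with h0 | hpos
  · -- `f` vanishes on `E`
    have hne' : ‖(u : X)‖ ≠ 0 := by
      rw [hu1']; exact one_ne_zero
    obtain ⟨g, hg, hgu⟩ := exists_dual_vector ℝ (u : X) hne'
    refine ⟨g, u, u.2, hu1', ?_, hg.le, ?_⟩
    · rw [hgu, hu1']; simp
    · intro x hx
      have := hbound ⟨x, hx⟩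
      rw [← h0, zero_mul] at this
      exact this.trans (abs_nonneg _)
  · obtain ⟨g, hg, hgn⟩ := exists_extension_norm_eq E
      (m⁻¹ • (f.comp E.subtypeL))
    have hgE : ∀ x : E, g x = m⁻¹ * f x := by
      intro x; rw [hg x]; rfl
    refine ⟨g, u, u.2, hu1', ?_, ?_, ?_⟩
    · rw [hgE, ← hm, inv_mul_cancel₀ hpos.ne']
    · rw [hgn]
      refine ContinuousLinearMap.opNorm_le_bound _ zero_le_one fun x => ?_
      have e : (m⁻¹ • (f.comp E.subtypeL)) x = m⁻¹ * f x := rfl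
      rw [e, Real.norm_eq_abs, abs_mul, abs_of_pos (inv_pos.2 hpos), one_mul]
      have := mul_le_mul_of_nonneg_left (hbound x) (inv_pos.2 hpos).le
      rwa [← mul_assoc, inv_mul_cancel₀ hpos.ne', one_mul] at this
    · intro x hx
      have e := hgE ⟨x, hx⟩
      simp only at e
      rw [e, abs_mul, abs_of_pos (inv_pos.2 hpos)]
      have h1 : (1 : ℝ) ≤ m⁻¹ := (one_le_inv₀ hpos).2 hm1
      exact le_mul_of_one_le_left (abs_nonneg _) h1

theorem woh_of_P (h : PropertyP X) : WeaklyOctahedral X := by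
  intro E f ε hE hf hε
  by_cases hnt : ∃ x ∈ E, x ≠ 0
  swap
  · push Not at hnt
    obtain ⟨y, hy, -⟩ := h 1 0 (fun i => 0) 0 one_pos (fun i => i.elim0) (by simp)
    refine ⟨y, hy, fun x hx => ?_⟩
    rw [hnt x hx, map_zero, hy, zero_add, hy]
    simp; linarith
  obtain ⟨g, u₀, hu₀E, hu₀, hgu, hg, hfg⟩ := exists_good_functional E f hf hnt
  -- choose `κ`
  set κ : ℝ := min (ε / 5) 1 with hκdef
  have hκ : 0 < κ := lt_min (by linarith) one_pos
  have hκε : 5 * κ ≤ ε := by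
    have := min_le_left (ε / 5) 1
    linarith
  set η : ℝ := κ / 8 with hη
  have hη0 : 0 < η := by positivity
  -- a finite net of the sphere of `E`
  have : ProperSpace E := FiniteDimensional.proper ℝ E
  have hcomp : IsCompact (Metric.sphere (0 : E) 1) := isCompact_sphere _ _
  obtain ⟨T, hTS, hTfin, hT⟩ := hcomp.totallyBounded.exists_subset
    (Metric.dist_mem_uniformity hη0)
  obtain ⟨n, x, hx⟩ := hTfin.fin_param
  obtain ⟨y, hy, hyx⟩ := h η n (fun i => (x i : X)) g hη0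
    (fun i => by
      have : x i ∈ Metric.sphere (0 : E) 1 := hTS (by rw [← hx.2]; exact ⟨i, rfl⟩)
      simpa using this) hg
  have hsph : ∀ u ∈ E, ‖u‖ = 1 → 1 + |g u| - κ ≤ ‖u + y‖ := by
    intro u huE hu
    have hmem : (⟨u, huE⟩ : E) ∈ Metric.sphere (0 : E) 1 := by
      rw [mem_sphere_zero_iff_norm]; exact hu
    have := hT hmem
    simp only [Set.mem_iUnion, Set.mem_ofPred_eq] at this
    obtain ⟨t, htT, hdist⟩ := this
    rw [← hx.2] at htT
    obtain ⟨i, rfl⟩ := htT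
    have hd : ‖u - (x i : X)‖ < η := by
      have : dist (⟨u, huE⟩ : E) (x i) < η := hdist
      rw [dist_eq_norm] at this
      exact this
    have h1 := hyx i
    have h2 : ‖(x i : X) + y‖ ≤ ‖u + y‖ + ‖u - (x i : X)‖ := by
      have e : (x i : X) + y = (u + y) - (u - (x i : X)) := by abel
      rw [e]; exact norm_sub_le _ _
    have h3 : |g u| ≤ |g (x i : X)| + ‖u - (x i : X)‖ := by
      have e : g u = g (x i : X) + g (u - (x i : X)) := by rw [map_sub]; ring
      have h4 : |g (u - (x i : X))| ≤ ‖u - (x i : X)‖ := by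
        have := g.le_opNorm (u - (x i : X))
        rw [Real.norm_eq_abs] at this
        refine this.trans ?_
        exact mul_le_of_le_one_left (norm_nonneg _) hg
      rw [e]
      exact (abs_add_le _ _).trans (by linarith)
    have h5 : |g u| ≤ 1 := by
      have := g.le_opNorm u
      rw [Real.norm_eq_abs, hu, mul_one] at this
      exact this.trans hg
    have h6 : |g (x i : X)| ≤ 1 := by
      have := g.le_opNorm (x i : X)
      have e : ‖(x i : X)‖ = 1 := by
        have : x i ∈ Metric.sphere (0 : E) 1 := hTS (by rw [← hx.2]; exact ⟨i, rfl⟩)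
        simpa using this
      rw [Real.norm_eq_abs, e, mul_one] at this
      exact this.trans hg
    nlinarith [norm_nonneg (u - (x i : X)), abs_nonneg (g (x i : X))]
  refine ⟨y, hy, fun v hv => ?_⟩
  have hA : 0 ≤ |f v| := abs_nonneg _
  have hB : |f v| ≤ |g v| := hfg v hv
  have hmain : (1 - ε) * (|g v| + 1) ≤ ‖v + y‖ := by
    rcases le_total ‖v‖ 1 with h1 | h1
    · have := ball_bound E g u₀ y κ hκ.le hu₀E hu₀ hgu hy hsph v hv h1
      nlinarith [abs_nonneg (g v)]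
    · have hv0 : 0 < ‖v‖ := by linarith
      have hu : ‖‖v‖⁻¹ • v‖ = 1 := by
        rw [norm_smul, Real.norm_eq_abs, abs_of_pos (inv_pos.2 hv0), inv_mul_cancel₀ hv0.ne']
      have h2 := outer_bound g y κ hy _ (hsph _ (E.smul_mem _ hv) hu) ‖v‖ h1
      rw [smul_smul, mul_inv_cancel₀ hv0.ne', one_smul] at h2
      have h3 : ‖v‖ - 1 ≤ ‖v + y‖ := by
        have e : v = (v + y) - y := by abel
        have := norm_sub_le (v + y) y
        rw [← e, hy] at this
        linarith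
      have hgv := abs_nonneg (g v)
      rcases le_total (|g v| + 2) ‖v‖ with h4 | h4
      · nlinarith
      · have h5 : ‖v‖ * κ ≤ (|g v| + 2) * κ := mul_le_mul_of_nonneg_right h4 hκ.le
        nlinarith
  rw [hy]
  rcases le_total ε 1 with hε1 | hε1
  · refine le_trans ?_ hmain
    exact mul_le_mul_of_nonneg_left (by linarith) (by linarith)
  · refine le_trans ?_ (norm_nonneg _)
    exact mul_nonpos_of_nonpos_of_nonneg (by linarith) (by linarith)

theorem P_of_woh (h : WeaklyOctahedral X) : PropertyP X := by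
  intro ε n x f hε hx hf
  have : FiniteDimensional ℝ (Submodule.span ℝ (Set.range x)) :=
    FiniteDimensional.span_of_finite ℝ (Set.finite_range x)
  obtain ⟨y, hy, hyx⟩ := h (Submodule.span ℝ (Set.range x)) f ε this hf hε
  refine ⟨y, hy, fun i => ?_⟩
  have := hyx (x i) (Submodule.subset_span ⟨i, rfl⟩)
  rwa [hy] at this

/-- **Main result.** A real normed space is weakly octahedral if and only if it has
property (P). -/
theorem result (X : Type*) [NormedAddCommGroup X] [NormedSpace ℝ X] :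
    WeaklyOctahedral X ↔ PropertyP X :=
  ⟨P_of_woh, woh_of_P⟩

end Pool.Agent.Results.MP_140fc6_an.FinitePointWeaklyOctahedral
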